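import Pool.Agent.H37.CNL.Stmts

/-!
# Denominators of conductors: maximal normal elementary abelian subgroups of `p`-groups, `p` odd: statements
of the rows of the board `cnm`

Row `XXX` is a theorem `xxx_thm (h1 : S_AAA) ... : S_XXX` in `Pool/Agent/H<k>/CNM/XXX.lean`, importing this
file, namespace `Pool.CND`.
-/

set_option autoImplicit false

namespace Pool.CND

open Finset
open scoped Matrix

/-- `A` is maximal among the normal elementary abelian subgroups -/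
def MNE {G : Type} [Group G] (p : ℕ) (A : Subgroup G) : Prop :=
  A.Normal ∧ EA p A ∧ ∀ B : Subgroup G, B.Normal → EA p B → A ≤ B → B = A

/-- APA: relative form of `PCG`.  `R_0 = {x ∈ E : x ^ p = 1}` (a subgroup: central elements), `R_(i+1) = {w ∈ E : [w, G] ⊆ R_i, w ^ p ∈ R_i}`, `R_(-1) = 1`; the union is `E` (`G` is nilpotent, `E` normal).
Claim: `w ∈ R_i`, `w ^ p ∈ R_(i-2)` imply `w ∈ R_(i-1)`, `i ≥ 1` (`i = 1` is clear).  `i ≥ 2`: for `g ∈ G`, `s = [w, g] ∈ R_(i-1)`, `w s = w ^ g`, `(w s) ^ p = (w ^ p) ^ g = w ^ p` modulo `R_(i-3)`; modulo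
`R_(i-3)` the commutator `[w, s] ∈ R_(i-2)` is central of order `p`, so `(w s) ^ p = w ^ p s ^ p`; so `s ^ p ∈ R_(i-3)`, `s ∈ R_(i-2)` by induction; so `w ∈ R_(i-1)`.  (As in `PCG`, `OM1`.)  So `w ∈ R_1` -/
def S_APA : Prop := ∀ (p : ℕ) (G : Type) [Group G] [Finite G] (E : Subgroup G), p.Prime → p ≠ 2 →
  (∃ n : ℕ, Nat.card G = p ^ n) → E.Normal → (∀ x ∈ E, x ^ p = 1 → x ∈ Subgroup.center G) →
  ∀ w ∈ E, ∀ g : G, (w ^ p) ^ p = 1 → (w * g * w⁻¹ * g⁻¹) ^ p = 1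

/-- APB: induction on `|E|`.  `E = 1`: clear.  `R = {y ∈ E : y ^ p = 1}` is a central subgroup, `≠ 1`; in `G / R`, `E / R` satisfies the hypotheses (`APA`); so `s ^ p ∈ R`.  So `(s ^ p) ^ p = 1`, and by `APA` `[s, g] ∈ R` is
central of order `p` for all `g`; so `1 = (x s) ^ p = x ^ p s ^ p = s ^ p` (`p` odd) -/
def S_APB : Prop := ∀ (p : ℕ) (G : Type) [Group G] [Finite G] (E : Subgroup G), p.Prime → p ≠ 2 →
  (∃ n : ℕ, Nat.card G = p ^ n) → E.Normal → (∀ x ∈ E, x ^ p = 1 → x ∈ Subgroup.center G) →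
  ∀ x : G, ∀ s ∈ E, x ^ p = 1 → (x * s) ^ p = 1 → s ^ p = 1

/-- ALP (Alperin): suppose not.  `D` of least order among the normal subgroups with `A ≤ D ≤ C(A)` that contain an `x ∉ A` with `x ^ p = 1`; `E = ⁅D, ⊤⁆ ⊔ A` is normal and `< D` (`G` nilpotent), so the `y ∈ E` with `y ^ p = 1` are
in `A`, so central in `D`.  `x ∈ D`, `x ∉ A`, `x ^ p = 1`.  For `g ∈ G`: `s = x⁻¹ * (g * x * g⁻¹) ∈ E`, `(x s) ^ p = 1`, so `s ^ p = 1` (`APB` in the group `D`), so `s ∈ A`.  So `A ⟨x⟩` is normal and elementary abelian: a contradiction -/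
def S_ALP : Prop := ∀ (p : ℕ) (G : Type) [Group G] [Finite G] (A : Subgroup G), p.Prime → p ≠ 2 →
  (∃ n : ℕ, Nat.card G = p ^ n) → MNE p A →
  ∀ x : G, (∀ a ∈ A, x * a = a * x) → x ^ p = 1 → x ∈ A

/-- APD: `ZUW` with `H = C(A)`, `H₀ = ⊥` (second case of `PSec`: `ALP`) -/
def S_APD : Prop := ∀ (p : ℕ) (k G : Type) [Field k] [IsAlgClosed k] [CharP k p] [Group G]
  [Finite G] (A : Subgroup G), p.Prime → p ≠ 2 → (∃ n : ℕ, Nat.card G = p ^ n) → MNE p A →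
  (∀ c ∈ Cond k G, ∃ y : ℤ, ((Subgroup.centralizer (A : Set G)).index : ℚ) * c = y) ∧
  NG k G ∣ (Subgroup.centralizer (A : Set G)).index

/-- APE: `A` normal elementary abelian, all `[g, a]` in a subgroup `C` of order `p`, `A` not central: `C ≤ A`, `C` is central (normal of order `p`: generated by a `[g, a]`).  `A` and `G / C(A)` are `F_p`-spaces, the pairing
`G / C(A) × A / (A ∩ Z(G)) → C ≅ F_p` is perfect; `n = dim A / (A ∩ Z(G))`, `A = A₁ × (A ∩ Z(G))` as spaces, `κ a c = φ(a) ψ(c 0)`, `φ : F_p ^ n ≃ A₁`, `ψ : F_p ≃ C`.  (Compare `OM2`) -/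
def S_APE : Prop := ∀ (p : ℕ) (G : Type) [Group G] [Finite G] [Fact p.Prime] (A C : Subgroup G),
  (∃ n : ℕ, Nat.card G = p ^ n) → A.Normal → EA p A → Nat.card C = p →
  (∀ g : G, ∀ a ∈ A, g * a * g⁻¹ * a⁻¹ ∈ C) → ¬ A ≤ Subgroup.center G →
  ∃ (n : ℕ) (κ : (Fin n → ZMod p) → (Fin 1 → ZMod p) → G)
    (β : G → Matrix (Fin 1) (Fin n) (ZMod p)), 1 ≤ n ∧
    (Subgroup.centralizer (A : Set G)).index = p ^ n ∧
    (∀ a a' c c', κ (a + a') (c + c') = κ a c * κ a' c') ∧ (∀ a c, κ a c = 1 → a = 0 ∧ c = 0) ∧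
    (∀ g h : G, β (g * h) = β g + β h) ∧ Function.Surjective β ∧
    ∀ g a c, g * κ a c * g⁻¹ = κ a (c + β g *ᵥ a)

/-- PMX: `APD`; `PCN`; lower bounds: `APE` with `ZHF` (`F = ZMod p`, `r = 1`, `gcd(2, p) = 1`); `A` central: the index is `1`; index `p`: `A` is not central, so `OM3` -/
def S_PMX : Prop := ∀ (p : ℕ) (k G : Type) [Field k] [IsAlgClosed k] [CharP k p] [Group G]
  [Finite G] (A : Subgroup G), p.Prime → p ≠ 2 → (∃ n : ℕ, Nat.card G = p ^ n) → MNE p A →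
  (∀ c ∈ Cond k G, ∃ y : ℤ, ((Subgroup.centralizer (A : Set G)).index : ℚ) * c = y) ∧
  NG k G ∣ (Subgroup.centralizer (A : Set G)).index ∧
  (NG k G = 1 ↔ ∀ x : G, x ^ p = 1 → x ∈ Subgroup.center G) ∧
  ((Subgroup.centralizer (A : Set G)).index = p → NG k G = p) ∧
  ((∃ C : Subgroup G, Nat.card C = p ∧ ∀ g : G, ∀ a ∈ A, g * a * g⁻¹ * a⁻¹ ∈ C) →
    NG k G = (Subgroup.centralizer (A : Set G)).index)

/-- PMZ: class `2` with cyclic centre: `A` from finiteness (a maximal normal elementary abelian subgroup, any), all `[g, a]` with `a ∈ A` lie in the centre and have order dividing `p`, so in the subgroup of order `p` of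
the cyclic centre; `PMX` -/
def S_PMZ : Prop := ∀ (p : ℕ) (k G : Type) [Field k] [IsAlgClosed k] [CharP k p] [Group G]
  [Finite G], p.Prime → p ≠ 2 → (∃ n : ℕ, Nat.card G = p ^ n) → IsCyclic (Subgroup.center G) →
  (∀ g h : G, g * h * g⁻¹ * h⁻¹ ∈ Subgroup.center G) → ∀ A : Subgroup G, MNE p A →
  NG k G = (Subgroup.centralizer (A : Set G)).index

end Pool.CND
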